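import Pool.Agent.V5helper77.GS.Defs
import Pool.Agent.Q193.LT.Prime

/-!
# Semisimplicity of Galois representations and trilinear forms
-/

set_option autoImplicit false
set_option linter.unusedSectionVars false

open CategoryTheory CategoryTheory.Limits AlgebraicGeometry Pool.Agent.Y116.UV
  Pool.Agent.Z125.UN Pool.Agent.Q193.LT Pool.Agent.V5helper77.GW

namespace Pool.Agent.V5helper77.GS

open scoped MonoidAlgebra

section rep

variable {Ω : Type} [Field Ω] {G H : Type} [Group G] [Group H]

lemma act_add (A : Rep.{0} Ω G) (g : G) (x y : A) : act A g (x + y) = act A g x + act A g y :=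
  map_add _ _ _

lemma act_zero (A : Rep.{0} Ω G) (g : G) : act A g 0 = 0 := map_zero _

lemma act_smul (A : Rep.{0} Ω G) (g : G) (c : Ω) (x : A) : act A g (c • x) = c • act A g x :=
  map_smul _ _ _

lemma act_mul (A : Rep.{0} Ω G) (g g' : G) (x : A) : act A g (act A g' x) = act A (g * g') x := by
  unfold act
  rw [map_mul]
  rfl

lemma act_one (A : Rep.{0} Ω G) (x : A) : act A 1 x = x := by
  unfold act
  rw [map_one]
  rfl

/-- stable subspaces -/
def Stable (A : Rep.{0} Ω G) (W : Submodule Ω A) : Prop := ∀ g, ∀ x ∈ W, act A g x ∈ W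

lemma ss_iff (A : Rep.{0} Ω G) : IsSemisimpleRep A ↔
    ∀ W, Stable A W → ∃ W', Stable A W' ∧ IsCompl W W' := by
  constructor
  · intro h W hW
    let W1 : Subrepresentation A.ρ := ⟨W, fun g x hx => hW g x hx⟩
    obtain ⟨W2, h2⟩ := h.exists_isCompl W1
    refine ⟨W2.toSubmodule, fun g x hx => W2.apply_mem_toSubmodule g hx, ?_⟩
    constructor
    · rw [Submodule.disjoint_def]
      intro x h3 h4
      have h5 : x ∈ W1 ⊓ W2 := ⟨h3, h4⟩
      rw [h2.inf_eq_bot] at h5
      exact h5
    · rw [codisjoint_iff, eq_top_iff]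
      intro x _
      have h5 : x ∈ W1 ⊔ W2 := by rw [h2.sup_eq_top]; trivial
      exact h5
  · intro h
    refine ⟨fun W => ?_⟩
    obtain ⟨W', h1, h2⟩ := h W.toSubmodule fun g x hx => W.apply_mem_toSubmodule g hx
    let W2 : Subrepresentation A.ρ := ⟨W', fun g x hx => h1 g x hx⟩
    refine ⟨W2, ?_⟩
    constructor
    · rw [disjoint_iff, eq_bot_iff]
      intro x hx
      have h3 : x ∈ W.toSubmodule ⊓ W' := hx
      rw [h2.inf_eq_bot] at h3
      exact h3
    · rw [codisjoint_iff, eq_top_iff]
      intro x _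
      have h3 : x ∈ W.toSubmodule ⊔ W' := by rw [h2.sup_eq_top]; trivial
      exact h3

/-- Semisimplicity passes along an isomorphism of vector spaces which identifies the stable subspaces. -/
lemma ss_of_equiv {A : Rep.{0} Ω G} {B : Rep.{0} Ω H} (e : A ≃ₗ[Ω] B)
    (h1 : ∀ W, Stable B W → Stable A (W.comap (e : A →ₗ[Ω] B)))
    (h2 : ∀ W, Stable A W → Stable B (W.comap (e.symm : B →ₗ[Ω] A)))
    (h : IsSemisimpleRep A) : IsSemisimpleRep B := by
  rw [ss_iff] at h ⊢
  intro W hW
  obtain ⟨W', h3, h4⟩ := h _ (h1 W hW)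
  refine ⟨W'.comap (e.symm : B →ₗ[Ω] A), h2 W' h3, ?_⟩
  constructor
  · rw [Submodule.disjoint_def]
    intro x hx hx'
    have h5 : e.symm x ∈ W.comap (e : A →ₗ[Ω] B) := by
      change e (e.symm x) ∈ W
      rw [LinearEquiv.apply_symm_apply]
      exact hx
    have h6 := (Submodule.disjoint_def.mp h4.disjoint) _ h5 hx'
    exact e.symm.map_eq_zero_iff.mp h6
  · rw [codisjoint_iff, eq_top_iff]
    intro x _
    have h5 : e.symm x ∈ W.comap (e : A →ₗ[Ω] B) ⊔ W' := by
      rw [h4.sup_eq_top]
      trivial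
    obtain ⟨y, hy, z, hz, h6⟩ := Submodule.mem_sup.mp h5
    refine Submodule.mem_sup.mpr ⟨e y, hy, e z, ?_, ?_⟩
    · change e.symm (e z) ∈ W'
      rw [LinearEquiv.symm_apply_apply]
      exact hz
    · rw [← map_add, h6, LinearEquiv.apply_symm_apply]

/-- An induced representation is semisimple only if the given representation is semisimple. -/
lemma IsInduced.ss {A : Rep.{0} Ω H} {B : Rep.{0} Ω G} (h : IsInduced B A)
    (hB : IsSemisimpleRep B) : IsSemisimpleRep A := by
  obtain ⟨j, s, p, h1, h2, h3, h4⟩ := h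
  rw [ss_iff] at hB ⊢
  intro W hW
  -- the induced subspace
  let U : Submodule Ω B :=
    { carrier := {y | ∀ g, p (act B g y) ∈ W}
      add_mem' := fun {x y} hx hy g => by
        rw [act_add, map_add]
        exact W.add_mem (hx g) (hy g)
      zero_mem' := fun g => by
        rw [act_zero, map_zero]
        exact W.zero_mem
      smul_mem' := fun c x hx g => by
        rw [act_smul, map_smul]
        exact W.smul_mem c (hx g) }
  have hU : Stable B U := by
    intro g x hx g'
    rw [act_mul]
    exact hx _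
  have hsU : ∀ x ∈ W, s x ∈ U := by
    intro x hx g
    by_cases hg : ∃ h, g = j h
    · obtain ⟨h, rfl⟩ := hg
      rw [h3, h1]
      exact hW h x hx
    · rw [h4 g fun h h5 => hg ⟨h, h5⟩]
      exact W.zero_mem
  have hpU : ∀ y ∈ U, p y ∈ W := by
    intro y hy
    have h5 := hy 1
    rwa [act_one] at h5
  obtain ⟨U', hU', hc⟩ := hB U hU
  let π : B →ₗ[Ω] U := Submodule.projectionOnto U U' hc
  have hπ : ∀ g y, (π (act B g y) : B) = act B g (π y) := by
    intro g y
    have h5 : ∀ y, ∃ z ∈ U', y = π y + z := by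
      intro y
      refine ⟨y - π y, ?_, by abel⟩
      have h6 : π (y - π y) = 0 := by
        rw [map_sub, Submodule.projectionOnto_apply_left, sub_self]
      exact (Submodule.projectionOnto_apply_eq_zero_iff hc).mp h6
    obtain ⟨z, hz, hz'⟩ := h5 y
    have h6 : act B g y = act B g (π y) + act B g z := by rw [← act_add, ← hz']
    have h7 : π (act B g (π y)) = ⟨act B g (π y), hU g _ (π y).2⟩ :=
      Submodule.projectionOnto_apply_left hc ⟨act B g (π y), hU g _ (π y).2⟩
    have h8 : π (act B g z) = 0 := (Submodule.projectionOnto_apply_eq_zero_iff hc).mpr (hU' g z hz)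
    rw [h6, map_add, h7, h8, add_zero]
  -- the equivariant projection onto `W`
  let q : A →ₗ[Ω] A := p ∘ₗ U.subtype ∘ₗ π ∘ₗ s
  have hq1 : ∀ x, q x ∈ W := fun x => hpU _ (π (s x)).2
  have hq2 : ∀ x ∈ W, q x = x := by
    intro x hx
    have h5 : π (s x) = ⟨s x, hsU x hx⟩ := Submodule.projectionOnto_apply_left hc ⟨s x, hsU x hx⟩
    change p (π (s x)) = x
    rw [h5]
    exact h1 x
  have hq3 : ∀ h x, q (act A h x) = act A h (q x) := by
    intro h x
    change p (π (s (act A h x))) = act A h (p (π (s x)))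
    rw [h2, hπ, h3]
  refine ⟨LinearMap.ker q, ?_, ?_⟩
  · intro h x hx
    rw [LinearMap.mem_ker] at hx ⊢
    rw [hq3, hx, act_zero]
  · constructor
    · rw [Submodule.disjoint_def]
      intro x hx hx'
      rw [LinearMap.mem_ker] at hx'
      rw [← hq2 x hx, hx']
    · rw [codisjoint_iff, eq_top_iff]
      intro x _
      refine Submodule.mem_sup.mpr ⟨q x, hq1 x, x - q x, ?_, by abel⟩
      rw [LinearMap.mem_ker, map_sub, hq2 _ (hq1 x), sub_self]

lemma SameImage.ss {A : Rep.{0} Ω G} {B : Rep.{0} Ω H} (h : SameImage A B)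
    (hA : IsSemisimpleRep A) : IsSemisimpleRep B := by
  obtain ⟨e, h1, h2⟩ := h
  refine ss_of_equiv e ?_ ?_ hA
  · intro W hW g x hx
    obtain ⟨h, h3⟩ := h1 g
    change e (act A g x) ∈ W
    rw [h3]
    exact hW h _ hx
  · intro W hW h x hx
    obtain ⟨g, h3⟩ := h2 h
    change e.symm (act B h x) ∈ W
    have h4 := h3 (e.symm x)
    rw [LinearEquiv.apply_symm_apply] at h4
    rw [← h4, LinearEquiv.symm_apply_apply]
    exact hW g _ hx

/-- Twists of representations by characters. -/
lemma IsTwistOf.symm {c : G →* Ωˣ} {A B : Rep.{0} Ω G} (h : IsTwistOf c A B) :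
    IsTwistOf c⁻¹ B A := by
  obtain ⟨e, he⟩ := h
  refine ⟨e.symm, fun g x => ?_⟩
  apply e.injective
  rw [LinearEquiv.apply_symm_apply, map_smul, he, LinearEquiv.apply_symm_apply, smul_smul,
    MonoidHom.inv_apply, Units.inv_mul, one_smul]

lemma IsTwistOf.ss {c : G →* Ωˣ} {A B : Rep.{0} Ω G} (h : IsTwistOf c A B)
    (hA : IsSemisimpleRep A) : IsSemisimpleRep B := by
  have h' := h.symm
  obtain ⟨e, he⟩ := h
  refine ss_of_equiv e ?_ ?_ hA
  · intro W hW g x hx
    change e (act A g x) ∈ W
    rw [he]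
    exact W.smul_mem _ (hW g _ hx)
  · intro W hW g x hx
    change e.symm (act B g x) ∈ W
    have h1 := he g (e.symm x)
    rw [LinearEquiv.apply_symm_apply] at h1
    have h2 : act B g x = ((c g : Ω))⁻¹ • e (act A g (e.symm x)) := by
      rw [h1, smul_smul, inv_mul_cancel₀ (Units.ne_zero _), one_smul]
    rw [h2, map_smul, LinearEquiv.symm_apply_apply]
    exact Submodule.smul_mem _ _ (hW g _ hx)

lemma IsTwistOf.ss_iff {c : G →* Ωˣ} {A B : Rep.{0} Ω G} (h : IsTwistOf c A B) :
    IsSemisimpleRep A ↔ IsSemisimpleRep B := ⟨h.ss, h.symm.ss⟩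

/-- A direct summand. -/
lemma ss_retract {A B : Rep.{0} Ω G} (i : A ⟶ B) (hi : Function.Injective i.hom)
    (hB : IsSemisimpleRep B) : IsSemisimpleRep A := by
  unfold IsSemisimpleRep at hB ⊢
  rw [Representation.isSemisimpleRepresentation_iff_isSemisimpleModule_asModule] at hB ⊢
  let f := Representation.IntertwiningMap.equivLinearMapAsModule (ρ := A.ρ) (σ := B.ρ) i.hom
  exact IsSemisimpleModule.of_injective f hi

/-- A sum of two subrepresentations. -/
lemma ss_sum {A A' B : Rep.{0} Ω G} (i : A ⟶ B) (i' : A' ⟶ B)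
    (h : ∀ x : B, ∃ (y : A) (z : A'), x = i.hom y + i'.hom z)
    (hA : IsSemisimpleRep A) (hA' : IsSemisimpleRep A') :
    IsSemisimpleRep B := by
  unfold IsSemisimpleRep at hA hA' ⊢
  rw [Representation.isSemisimpleRepresentation_iff_isSemisimpleModule_asModule] at hA hA' ⊢
  let f := Representation.IntertwiningMap.equivLinearMapAsModule (ρ := A.ρ) (σ := B.ρ) i.hom
  let f' := Representation.IntertwiningMap.equivLinearMapAsModule (ρ := A'.ρ) (σ := B.ρ) i'.hom
  have h1 : IsSemisimpleModule (MonoidAlgebra Ω G) (LinearMap.range f) :=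
    IsSemisimpleModule.of_surjective f.rangeRestrict f.surjective_rangeRestrict
  have h2 : IsSemisimpleModule (MonoidAlgebra Ω G) (LinearMap.range f') :=
    IsSemisimpleModule.of_surjective f'.rangeRestrict f'.surjective_rangeRestrict
  have h3 := IsSemisimpleModule.sup h1 h2
  have h4 : LinearMap.range f ⊔ LinearMap.range f' = ⊤ := by
    rw [eq_top_iff]
    intro x _
    obtain ⟨y, z, hx⟩ := h x
    exact Submodule.mem_sup.mpr ⟨f y, ⟨y, rfl⟩, f' z, ⟨z, rfl⟩, hx.symm⟩
  rw [h4] at h3
  exact IsSemisimpleModule.congr Submodule.topEquiv.symm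

end rep

section motives

variable {k : Type} [Field k] {Ω : Type} [Field Ω] {T : Motives k Ω} (hT : IsMotives T)

include hT

/-- Semisimplicity of the realization passes to direct summands, sums and Tate twists. -/
theorem twistClass : IsTwistClass (fun _ M => T.Semisimple M) T.tw where
  zero _ M hM := by
    have := hT.additive
    have h1 := T.F.map_isZero hM
    rw [Rep.isZero_iff] at h1
    change IsSemisimpleRep (T.F.obj M)
    rw [ss_iff]
    intro W _
    refine ⟨W, fun g x hx => ?_, ?_⟩
    · have h2 : act (T.F.obj M) g x = x := Subsingleton.elim _ _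
      rw [h2]
      exact hx
    · constructor
      · rw [Submodule.disjoint_def]
        exact fun x _ _ => Subsingleton.elim _ _
      · rw [codisjoint_iff, eq_top_iff]
        intro x _
        have h2 : x = 0 := Subsingleton.elim _ _
        rw [h2]
        exact Submodule.zero_mem _
  retract _ {M N} i r h hN := by
    refine ss_retract (T.F.map i) ?_ hN
    intro x y hxy
    have h1 : T.F.map i ≫ T.F.map r = 𝟙 _ := by rw [← T.F.map_comp, h, T.F.map_id]
    have h2 : ∀ z, (T.F.map r).hom ((T.F.map i).hom z) = z := by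
      intro z
      have h3 := Rep.comp_apply (T.F.map i) (T.F.map r) z
      rw [h1, Rep.id_apply] at h3
      exact h3.symm
    rw [← h2 x, hxy, h2 y]
  sum _ {M N} hM hN := by
    have := hT.additive
    refine ss_sum (T.F.map biprod.inl) (T.F.map biprod.inr) (fun x => ?_) hM hN
    refine ⟨(T.F.map (biprod.fst : M ⊞ N ⟶ M)).hom x, (T.F.map (biprod.snd : M ⊞ N ⟶ N)).hom x, ?_⟩
    have h1 : T.F.map (biprod.fst : M ⊞ N ⟶ M) ≫ T.F.map biprod.inl +
        T.F.map (biprod.snd : M ⊞ N ⟶ N) ≫ T.F.map biprod.inr = 𝟙 _ := by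
      rw [← T.F.map_comp, ← T.F.map_comp, ← T.F.map_add, biprod.total, T.F.map_id]
    have h2 := congrArg (fun f : T.F.obj (M ⊞ N) ⟶ T.F.obj (M ⊞ N) => f.hom x) h1
    exact h2.symm
  twist w r M := by
    obtain ⟨χ, hχ⟩ := hT.twist
    exact (hχ r M).ss_iff

theorem point_ss : AllPieces T.V (fun _ M => T.Semisimple M) (aff k k) := by
  intro w n
  by_cases h : w ≠ 0 ∨ n ≠ 0
  · exact (twistClass hT).zero w _ (hT.point_zero w n h)
  · push Not at h
    obtain ⟨rfl, rfl⟩ := h
    change IsSemisimpleRep (T.F.obj (T.V 0 0 (aff k k)))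
    rw [ss_iff]
    intro W _
    obtain ⟨W', hW'⟩ := exists_isCompl W
    refine ⟨W', fun g x hx => ?_, hW'⟩
    have h1 : act (T.F.obj (T.V 0 0 (aff k k))) g x = x := hT.point g x
    rw [h1]
    exact hx

/-- One field, graded by the dimension. -/
theorem field_graded [CharZero k] (hH : Hironaka k) (n : ℕ) :
    (T.SmProjUpTo n ↔ T.SchemesUpTo n) ∧ (T.SmProjUpTo n ↔ T.CubicsUpTo (n + 2)) :=
  graded_iff hT.theory (twistClass hT) (point_ss hT) hH n

end motives

section theory

variable {Ω : Type} [Field Ω] {T : ∀ (k : Type) [Field k] [CharZero k], Motives k Ω}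

theorem ft_res (K : Type) [Field K] [NumberField K] {X : Sch K} (h : FT True X) :
    FT True (res K X) := by
  have h1 := h.locallyOfFiniteType
  have h2 := h.quasiCompact
  have h5 := h.separated trivial
  have hf : Algebra.FiniteType ℚ K := inferInstance
  have h3 : LocallyOfFiniteType (Spec.map (CommRingCat.ofHom (algebraMap ℚ K))) := by
    rw [HasRingHomProperty.Spec_iff (P := @LocallyOfFiniteType)]
    exact RingHom.finiteType_algebraMap.mpr hf
  have h4 : QuasiCompact (Spec.map (CommRingCat.ofHom (algebraMap ℚ K))) := inferInstance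
  have h6 : IsSeparated (Spec.map (CommRingCat.ofHom (algebraMap ℚ K))) := inferInstance
  constructor
  · exact MorphismProperty.comp_mem _ X.hom _ h1 h3
  · exact MorphismProperty.comp_mem _ X.hom _ h2 h4
  · exact fun _ => MorphismProperty.comp_mem _ X.hom _ h5 h6

lemma fg_rat : IsFG ℚ := ⟨∅, by
  rw [eq_top_iff]
  intro x _
  have h := SubfieldClass.ratCast_mem (Subfield.closure ((∅ : Finset ℚ) : Set ℚ)) x
  rwa [Rat.cast_id] at h⟩

/-- All finitely generated fields, and the hypergraph cubics over the rational numbers. -/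
theorem graph_iff (hT : IsTheory T) (hH : ∀ (k : Type) [Field k] [CharZero k], Hironaka k) :
    GrothendieckSerre T ↔ (T ℚ).HypergraphCubics := by
  have hQ := hT.field ℚ
  constructor
  · intro h
    exact (trip_iff frac_rat hQ.theory (twistClass hQ) (point_ss hQ) (hH ℚ)).mp
      fun X hX i => h ℚ fg_rat X hX i
  · intro h k _ _ hk X hX i
    have h1 : ∀ X : Sch ℚ, FT True X → (T ℚ).AllSemisimple X := fun X hX =>
      universal_frac frac_rat (bnd_pieces hQ.theory (twistClass hQ) (point_ss hQ)).toUni h X hX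
    obtain ⟨K, _, _, Y, hY, h2⟩ := hT.specialization k hk X hX
    have hp := hY.proper
    have hft : FT True Y := ⟨inferInstance, inferInstance, fun _ => inferInstance⟩
    have h3 := h1 (res K Y) (ft_res K hft) i i
    exact (h2 i).ss ((hT.restriction K Y hft i i).ss h3)

end theory

end Pool.Agent.V5helper77.GS
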