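import Pool.Agent.V5helper77.GW.Wt

/-!
# Motives and their `ℓ`-adic realizations: definitions
-/

set_option autoImplicit false

open CategoryTheory CategoryTheory.Limits AlgebraicGeometry Pool.Agent.Y116.UV
  Pool.Agent.V5helper77.GW

namespace Pool.Agent.V5helper77.GS

section rep

variable {Ω : Type} [Field Ω] {G H : Type} [Group G] [Group H]

/-- The action of `g` on the element `x` of the representation. -/
def act (A : Rep.{0} Ω G) (g : G) (x : A) : A := A.ρ g x

/-- The representation is semisimple: every subrepresentation has a complement. -/
def IsSemisimpleRep (A : Rep.{0} Ω G) : Prop := A.ρ.IsSemisimpleRepresentation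

/-- The representation `A` is isomorphic to the representation `B`, multiplied by the character `c`. -/
def IsTwistOf (c : G →* Ωˣ) (A B : Rep.{0} Ω G) : Prop :=
  ∃ e : A ≃ₗ[Ω] B, ∀ g x, e (act A g x) = (c g : Ω) • act B g (e x)

/-- The images of two representations agree, after an identification of the vector spaces. -/
def SameImage (A : Rep.{0} Ω G) (B : Rep.{0} Ω H) : Prop :=
  ∃ e : A ≃ₗ[Ω] B, (∀ g, ∃ h, ∀ x, e (act A g x) = act B h (e x)) ∧
    ∀ h, ∃ g, ∀ x, e (act A g x) = act B h (e x)

/-- The representation `B` of `G` is induced from the representation `A` of `H`, by the homomorphism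
`j : H → G`: the representation `A` is a direct factor of the restriction of `B` to `H`, with inclusion
`s` and projection `p`, and the translates of this factor by the elements of `G` outside of the image
of `H` are in the kernel of the projection. -/
def IsInduced (B : Rep.{0} Ω G) (A : Rep.{0} Ω H) : Prop :=
  ∃ (j : H →* G) (s : A →ₗ[Ω] B) (p : B →ₗ[Ω] A), (∀ x, p (s x) = x) ∧
    (∀ h x, s (act A h x) = act B (j h) (s x)) ∧ (∀ h y, p (act B (j h) y) = act A h (p y)) ∧
    ∀ g, (∀ h, g ≠ j h) → ∀ x, p (act B g (s x)) = 0

end rep

/-- The data of a theory of motives over the field `k` of characteristic zero: an abelian category `C`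
(André's motives), the graded pieces `V w n X = Gr^W_w H^n_c(X)` of the cohomology with compact support
of the schemes over `k`, the Tate twists `tw r M = M(-r)`, and the `ℓ`-adic realization `F`, with values in
the representations of the absolute Galois group over the field `Ω = ℚ_ℓ`. -/
structure Motives (k : Type) [Field k] (Ω : Type) [Field Ω] where
  /-- the category of motives -/
  C : Type 1
  [category : Category.{0} C]
  [abelian : Abelian C]
  /-- `Gr^W_w H^n_c(X)` -/
  V : ℤ → ℤ → Sch k → C
  /-- Tate twists -/
  tw : ℤ → C → C
  /-- the realization -/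
  F : C ⥤ Rep.{0} Ω (Field.absoluteGaloisGroup k)

attribute [instance] Motives.category Motives.abelian

section

variable {k : Type} [Field k] {Ω : Type} [Field Ω]

/-- The Galois representation `Gr^W_w H^n_c(X, ℚ_ℓ)`. For a smooth projective variety and `w = n` this is
the representation `H^n(X, ℚ_ℓ)`. -/
def Motives.coh (T : Motives k Ω) (w n : ℤ) (X : Sch k) :
    Rep.{0} Ω (Field.absoluteGaloisGroup k) := T.F.obj (T.V w n X)

/-- The realization of the motive is a semisimple representation. -/
def Motives.Semisimple (T : Motives k Ω) (M : T.C) : Prop := IsSemisimpleRep (T.F.obj M)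

/-- All graded pieces `Gr^W_w H^n_c(X, ℚ_ℓ)` are semisimple representations. -/
def Motives.AllSemisimple (T : Motives k Ω) (X : Sch k) : Prop :=
  ∀ w n : ℤ, IsSemisimpleRep (T.coh w n X)

/-- The properties of the motives: the properties in `IsWeightTheory`, additivity of the realization, the
realization of the Tate twist `M(-r)` is the one of `M` multiplied by the power `χ^(-r)` of the
cyclotomic character, and the cohomology of a point. -/
structure IsMotives (T : Motives k Ω) : Prop where
  theory : IsWeightTheory T.V T.tw
  additive : T.F.Additive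
  twist : ∃ χ : Field.absoluteGaloisGroup k →* Ωˣ,
    ∀ (r : ℤ) (M : T.C), IsTwistOf (χ ^ (-r)) (T.F.obj (T.tw r M)) (T.F.obj M)
  point_zero : ∀ w n : ℤ, (w ≠ 0 ∨ n ≠ 0) → IsZero (T.V w n (aff k k))
  point : ∀ g x, act (T.coh 0 0 (aff k k)) g x = x

/-- The cohomology of the smooth projective varieties over `k` of dimension at most `n` is semisimple, in
all degrees. -/
def Motives.SmProjUpTo (T : Motives k Ω) (n : ℕ) : Prop :=
  ∀ X : Sch k, IsSmProj X → topologicalKrullDim X.left ≤ n → ∀ i, IsSemisimpleRep (T.coh i i X)

/-- All graded pieces `Gr^W_w H^i_c(X, ℚ_ℓ)` are semisimple, for all separated schemes `X` of finite type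
over `k` of dimension at most `n`. -/
def Motives.SchemesUpTo (T : Motives k Ω) (n : ℕ) : Prop :=
  ∀ X : Sch k, FT True X → topologicalKrullDim X.left ≤ n → T.AllSemisimple X

/-- All graded pieces `Gr^W_w H^i_c(X, ℚ_ℓ)` are semisimple, for all hypersurfaces `X : S(x, y, z) = 1`, `S` a
trilinear form over `k` one of whose three blocks of variables has at most `m` variables. -/
def Motives.CubicsUpTo (T : Motives k Ω) (m : ℕ) : Prop :=
  ∀ (a b c : ℕ) (S : Fin a → Fin b → Fin c → k), (a ≤ m ∨ b ≤ m ∨ c ≤ m) → T.AllSemisimple (hypS S)

/-- All graded pieces `Gr^W_w H^i_c(X, ℚ_ℓ)` are semisimple, for the cubic hypersurfaces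
`X : ∑_{(i, j, k) ∈ H} x_i y_j z_k = 1` over `ℚ` of all tripartite hypergraphs `H`. -/
def Motives.HypergraphCubics (T : Motives ℚ Ω) : Prop :=
  ∀ (a b c : ℕ) (H : Finset (Fin a × Fin b × Fin c)), T.AllSemisimple (tripS ℚ H)

end

/-- The scheme `X` over the extension `K` of `ℚ`, regarded as a scheme over `ℚ`. -/
noncomputable def res (K : Type) [Field K] [CharZero K] (X : Sch K) : Sch ℚ :=
  Over.mk (X.hom ≫ Spec.map (CommRingCat.ofHom (algebraMap ℚ K)))

/-- The field `k` is finitely generated. -/
def IsFG (k : Type) [Field k] : Prop := ∃ s : Finset k, Subfield.closure (s : Set k) = ⊤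

section theory

variable {Ω : Type} [Field Ω]

/-- **The conjecture of Grothendieck and Serre**: for all finitely generated fields `k` of characteristic
zero and all smooth projective varieties `X` over `k` the representations `H^i(X, ℚ_ℓ)` are
semisimple. -/
def GrothendieckSerre (T : ∀ (k : Type) [Field k] [CharZero k], Motives k Ω) : Prop :=
  ∀ (k : Type) [Field k] [CharZero k], IsFG k → ∀ X : Sch k, IsSmProj X →
    ∀ i, IsSemisimpleRep ((T k).coh i i X)

/-- Theories of motives over all fields of characteristic zero.

* `field`: the properties over one field;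
* `restriction`: for a scheme `X` over a number field `K` the cohomology of `X`, regarded as a scheme
  over `ℚ`, is the induced representation;
* `specialization` (Serre, Terasoma): if `X` is a smooth projective variety over a finitely generated
  field `k`, the generic fibre of a family, then the family has a fibre `Y` over a number field such that
  the image of the Galois group in the automorphisms of the cohomology is the same for `X` and `Y`. -/
structure IsTheory (T : ∀ (k : Type) [Field k] [CharZero k], Motives k Ω) : Prop where
  field : ∀ (k : Type) [Field k] [CharZero k], IsMotives (T k)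
  restriction : ∀ (K : Type) [Field K] [NumberField K] (X : Sch K), FT True X → ∀ w n : ℤ,
    IsInduced ((T ℚ).coh w n (res K X)) ((T K).coh w n X)
  specialization : ∀ (k : Type) [Field k] [CharZero k], IsFG k → ∀ X : Sch k, IsSmProj X →
    ∃ (K : Type) (_ : Field K) (_ : NumberField K) (Y : Sch K), IsSmProj Y ∧
      ∀ i : ℤ, SameImage ((T K).coh i i Y) ((T k).coh i i X)

end theory

end Pool.Agent.V5helper77.GS
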